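import Pool.Agent.Lib.MP_06e9af_co.U.Deg

/-!
Two trees: the configuration at a vertex that carries both almost complete trees.
-/

namespace Pool.Agent.Lib.MP_06e9af_co

open Finset

variable {α V : Type*}

/-- a vertex carries `T1 - y1` in red and `T2 - y2` in blue and has large red degree -/
structure Cf [Fintype V] [DecidableEq V] (T1 T2 : SimpleGraph α) (R B : SimpleGraph V)
    (y1 x1 y2 x2 : α) (f g : α → V) (t : α) (C : Finset V) (k : ℕ) : Prop where
  col : Col R B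
  leaf1 : LeafOf T1 y1 x1
  leaf2 : LeafOf T2 y2 x2
  nR : ¬ Cp T1 R
  nB : ¬ Cp T2 B
  hf : PC T1 R y1 f
  hg : PC T2 B y2 g
  gx : g x2 = f x1
  hC : ∀ z, z ∈ C ↔ ∃ u, u ≠ y1 ∧ f u = z
  cardC : C.card = k
  cardD : Cᶜ.card = k - 2
  red : ∀ c ∈ C, c ≠ f x1 → R.Adj (f x1) c
  blue : ∀ z, z ∉ C → B.Adj (f x1) z
  ty : t ≠ y2
  tx : t ≠ x2
  gt : g t ∈ C
  gout : ∀ u, u ≠ y2 → u ≠ x2 → u ≠ t → g u ∉ C

/-- `c` lies in `C` and is joined in `B` to everything outside `C` -/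
def Lp (B : SimpleGraph V) (C : Finset V) (c : V) : Prop := c ∈ C ∧ ∀ z, z ∉ C → B.Adj c z

variable [DecidableEq α] [Fintype α] [Fintype V] [DecidableEq V] {T1 T2 : SimpleGraph α}
  {R B : SimpleGraph V}

lemma exists_cf (hc : Col R B) {y1 x1 y x : α} (hl1 : LeafOf T1 y1 x1) (hl : LeafOf T2 y x)
    (nR : ¬ Cp T1 R) (nB : ¬ Cp T2 B)
    {k : ℕ} (hk : 2 ≤ k) (hα : Fintype.card α = k + 1) (hV : Fintype.card V = 2 * k - 2)
    {f g : α → V} (hf : PC T1 R y1 f) (hg : PC T2 B y g) (hfg : g x = f x1)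
    (hdeg : k - 1 ≤ (nb R (f x1)).card) : ∃ t C, Cf T1 T2 R B y1 x1 y x f g t C k := by
  set C := (univ.erase y1).image f with hCdef
  have hxy1 : x1 ≠ y1 := hl1.1.ne.symm
  have hxy : x ≠ y := hl.1.ne.symm
  have cC : C.card = k := by rw [hCdef, hf.card_image, hα]; rfl
  have hC : ∀ z, z ∈ C ↔ ∃ u, u ≠ y1 ∧ f u = z := by simp [hCdef]
  have vC : f x1 ∈ C := (hC _).mpr ⟨x1, hxy1, rfl⟩
  have e1 : nb R (f x1) = C.erase (f x1) := by
    refine eq_of_subset_of_card_le (hf.nb_sub hl1 nR) ?_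
    rw [card_erase_of_mem vC, cC]; exact hdeg
  have red : ∀ c ∈ C, c ≠ f x1 → R.Adj (f x1) c := by
    intro c h1 h2
    rw [← mem_nb, e1]; exact mem_erase.mpr ⟨h2, h1⟩
  have blue : ∀ z, z ∉ C → B.Adj (f x1) z := by
    intro z hz
    refine hc.blue (fun h => hz (h ▸ vC)) (fun h => hz ?_)
    rw [← mem_nb, e1] at h; exact mem_of_mem_erase h
  have cD : Cᶜ.card = k - 2 := by rw [card_compl, hV, cC]; omega
  set S := (univ.erase y).filter (fun u => g u ∈ C) with hS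
  set S' := (univ.erase y).filter (fun u => ¬ g u ∈ C) with hS'
  have s1 : S.card + S'.card = k := by
    rw [hS, hS', card_filter_add_card_filter_not]; simp [hα]
  have s2 : S'.card = k - 2 := by
    rw [← cD]
    refine card_bij (fun u _ => g u) ?_ ?_ ?_
    · intro u hu; simp only [hS', mem_filter] at hu; simpa using hu.2
    · intro a ha b hb hab
      simp only [hS', mem_filter, mem_erase] at ha hb
      exact hg.1 a b ha.1.1 hb.1.1 hab
    · intro z hz
      have hz' : z ∉ C := by simpa using hz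
      have := hg.nb_sub hl nB (show z ∈ nb B (g x) by rw [mem_nb, hfg]; exact blue z hz')
      obtain ⟨u, h1, h2⟩ := mem_image.mp (mem_of_mem_erase this)
      exact ⟨u, by simp only [hS', mem_filter]; exact ⟨h1, h2 ▸ hz'⟩, h2⟩
  have xS : x ∈ S := by
    simp only [hS, mem_filter, mem_erase, mem_univ, and_true]; exact ⟨hxy, hfg ▸ vC⟩
  have s3 : (S.erase x).card = 1 := by rw [card_erase_of_mem xS]; omega
  obtain ⟨t, ht⟩ := card_eq_one.mp s3
  have ht' : t ∈ S.erase x := by rw [ht]; simp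
  simp only [hS, mem_erase, mem_filter, mem_univ, and_true] at ht'
  refine ⟨t, C, hc, hl1, hl, nR, nB, hf, hg, hfg, hC, cC, cD, red, blue, ht'.2.1, ht'.1,
    ht'.2.2, ?_⟩
  intro u h1 h2 h3 h4
  have : u ∈ S.erase x := by
    simp only [hS, mem_erase, mem_filter, mem_univ, and_true]; exact ⟨h2, h1, h4⟩
  rw [ht] at this
  exact h3 (by simpa using this)

namespace Cf

variable {y1 x1 y2 x2 : α} {f g : α → V} {t : α} {C : Finset V} {k : ℕ}

omit [DecidableEq α] [Fintype α] in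
lemma fmem (c : Cf T1 T2 R B y1 x1 y2 x2 f g t C k) {u : α} (hu : u ≠ y1) : f u ∈ C :=
  (c.hC _).mpr ⟨u, hu, rfl⟩

omit [DecidableEq α] [Fintype α] in
lemma fne (c : Cf T1 T2 R B y1 x1 y2 x2 f g t C k) {u w : α} (hu : u ≠ y1) (hw : w ≠ y1)
    (h : u ≠ w) : f u ≠ f w := fun h' => h (c.hf.1 u w hu hw h')

omit [DecidableEq α] [Fintype α] in
lemma xy1 (c : Cf T1 T2 R B y1 x1 y2 x2 f g t C k) : x1 ≠ y1 := c.leaf1.1.ne.symm

omit [DecidableEq α] [Fintype α] in
lemma xy2 (c : Cf T1 T2 R B y1 x1 y2 x2 f g t C k) : x2 ≠ y2 := c.leaf2.1.ne.symm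

omit [DecidableEq α] [Fintype α] in
lemma nadj (c : Cf T1 T2 R B y1 x1 y2 x2 f g t C k) : ¬ T2.Adj x2 t := by
  intro h
  have h1 := c.hg.2 x2 t c.xy2 c.ty h
  rw [c.gx] at h1
  exact c.col.not_both (c.red _ c.gt h1.ne.symm) h1

omit [DecidableEq α] [Fintype α] in
lemma Lv (c : Cf T1 T2 R B y1 x1 y2 x2 f g t C k) : Lp B C (f x1) := ⟨c.fmem c.xy1, c.blue⟩

omit [Fintype α] in
lemma F1 (c : Cf T1 T2 R B y1 x1 y2 x2 f g t C k) {y' q : α} (l : GoodLeaf T1 y1 x1 y' q) :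
    Lp B C (f q) := by
  refine ⟨c.fmem l.qy, fun z hz => ?_⟩
  refine c.col.blue (fun h => hz (h ▸ c.fmem l.qy)) (fun h => c.nR ?_)
  refine c.hf.swapin c.leaf1 (t := y') (z := z) l.yy l.yx (fun u hu h => hz (h ▸ c.fmem hu)) ?_ ?_
  · intro u _ hadj
    rw [l.leaf.2 u hadj]; exact h.symm
  · exact c.red _ (c.fmem l.yy) (c.fne l.yy c.xy1 l.yx)

omit [Fintype α] in
lemma gen (c : Cf T1 T2 R B y1 x1 y2 x2 f g t C k) {a b : V} (ha : Lp B C a) (hb : Lp B C b)
    (hab : a ≠ b) : ∃ g', PC T2 B y2 g' ∧ g' x2 = a ∧ g' t = b ∧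
      ∀ u, u ≠ y2 → u ≠ x2 → u ≠ t → g' u ∉ C := by
  set g' : α → V := fun u => if u = x2 then a else if u = t then b else g u with hg'
  have e1 : g' x2 = a := by simp [hg']
  have e2 : g' t = b := by simp [hg', c.tx]
  have e3 : ∀ u, u ≠ x2 → u ≠ t → g' u = g u := fun u h1 h2 => by simp [hg', h1, h2]
  have e4 : ∀ u, u ≠ y2 → u ≠ x2 → u ≠ t → g' u ∉ C := fun u h0 h1 h2 => by
    rw [e3 u h1 h2]; exact c.gout u h0 h1 h2
  refine ⟨g', ⟨?_, ?_⟩, e1, e2, e4⟩
  · intro u u' h1 h2 he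
    by_cases b1 : u = x2 <;> by_cases b2 : u' = x2
    · rw [b1, b2]
    · by_cases c2 : u' = t
      · rw [b1, c2, e1, e2] at he; exact absurd he hab
      · rw [b1, e1] at he; exact absurd (he ▸ ha.1) (e4 u' h2 b2 c2)
    · by_cases c1 : u = t
      · rw [b2, c1, e1, e2] at he; exact absurd he.symm hab
      · rw [b2, e1] at he; exact absurd (he ▸ ha.1) (e4 u h1 b1 c1)
    by_cases c1 : u = t <;> by_cases c2 : u' = t
    · rw [c1, c2]
    · rw [c1, e2] at he; exact absurd (he ▸ hb.1) (e4 u' h2 b2 c2)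
    · rw [c2, e2] at he; exact absurd (he ▸ hb.1) (e4 u h1 b1 c1)
    · rw [e3 u b1 c1, e3 u' b2 c2] at he; exact c.hg.1 u u' h1 h2 he
  · intro u u' h1 h2 he
    by_cases b1 : u = x2
    · subst b1
      rw [e1]; exact ha.2 _ (e4 u' h2 he.ne.symm (fun h => c.nadj (h ▸ he)))
    by_cases b2 : u' = x2
    · subst b2
      rw [e1]; exact (ha.2 _ (e4 u h1 he.ne (fun h => c.nadj (h ▸ he.symm)))).symm
    by_cases c1 : u = t
    · subst c1
      rw [e2]; exact hb.2 _ (e4 u' h2 b2 he.ne.symm)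
    by_cases c2 : u' = t
    · subst c2
      rw [e2]; exact (hb.2 _ (e4 u h1 b1 he.ne)).symm
    rw [e3 u b1 c1, e3 u' b2 c2]; exact c.hg.2 u u' h1 h2 he

omit [Fintype α] in
lemma Lred (c : Cf T1 T2 R B y1 x1 y2 x2 f g t C k) {a w : V} (ha : Lp B C a) (hw : w ∈ C)
    (hwa : w ≠ a) : R.Adj a w := by
  by_cases hav : a = f x1
  · rw [hav]; exact c.red w hw (hav ▸ hwa)
  refine c.col.red hwa.symm (fun h => c.nB ?_)
  obtain ⟨g', p, e1, e2, e3⟩ := c.gen ha c.Lv hav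
  refine p.extend c.leaf2 (z := w) ?_ (e1 ▸ h)
  intro u hu he
  by_cases b1 : u = x2
  · rw [b1, e1] at he; exact hwa he.symm
  by_cases b2 : u = t
  · rw [b2, e2] at he
    exact c.col.not_both (c.red a ha.1 hav) (he ▸ h.symm)
  exact e3 u hu b1 b2 (he ▸ hw)

omit [DecidableEq α] [Fintype α] in
lemma red_of_not (c : Cf T1 T2 R B y1 x1 y2 x2 f g t C k) {w : V} (hw : w ∈ C)
    (hn : ¬ Lp B C w) : ∃ z, z ∉ C ∧ R.Adj w z := by
  by_contra hcon
  push Not at hcon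
  exact hn ⟨hw, fun z hz => c.col.blue (fun e => hz (e ▸ hw)) (hcon z hz)⟩

omit [DecidableEq α] [Fintype α] in
lemma exists_notL (c : Cf T1 T2 R B y1 x1 y2 x2 f g t C k) (hb : Bip T2 V k) :
    ∃ w ∈ C, ¬ Lp B C w := by
  by_contra hcon
  push Not at hcon
  refine c.nB (hb B C Cᶜ disjoint_compl_right ?_ (by rw [c.cardC]; omega) c.cardD.ge)
  intro a ha b hb
  exact (hcon a ha).2 b (by simpa using hb)

omit [Fintype α] in
lemma Wblue (c : Cf T1 T2 R B y1 x1 y2 x2 f g t C k) {y' q : α} (l : GoodLeaf T1 y1 x1 y' q)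
    {w : V} (hw : w ∈ C) (hn : ¬ Lp B C w) : ∃ w' ∈ C, B.Adj w w' := by
  obtain ⟨z, z1, z2⟩ := c.red_of_not hw hn
  by_contra hcon
  push Not at hcon
  have wr : ∀ w' ∈ C, w' ≠ w → R.Adj w w' := fun w' h1 h2 => c.col.red h2.symm (hcon w' h1)
  obtain ⟨u, uy, rfl⟩ := (c.hC w).mp hw
  have ux : u ≠ x1 := by rintro rfl; exact hn c.Lv
  have sy : ∀ a, a ≠ y1 → Equiv.swap u q a ≠ y1 := by
    intro a ha
    rw [Equiv.swap_apply_def]
    split_ifs
    · exact l.qy
    · exact uy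
    · exact ha
  have sne : ∀ a b, a ≠ y1 → b ≠ y1 → a ≠ b → f (Equiv.swap u q a) ≠ f (Equiv.swap u q b) :=
    fun a b ha hb hab => c.fne (sy a ha) (sy b hb) (fun h => hab ((Equiv.swap u q).injective h))
  have pc : PC T1 R y1 (fun a => f (Equiv.swap u q a)) := by
    constructor
    · intro a b ha hb he
      by_contra hab
      exact sne a b ha hb hab he
    · have one : ∀ a b, a ≠ y1 → b ≠ y1 → a ≠ b → (a = u ∨ a = q) →
          R.Adj (f (Equiv.swap u q a)) (f (Equiv.swap u q b)) := by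
        intro a b ha hb hab h
        have n := (sne a b ha hb hab).symm
        have m := c.fmem (sy b hb)
        rcases h with rfl | rfl
        · rw [Equiv.swap_apply_left] at n ⊢
          exact c.Lred (c.F1 l) m n
        · rw [Equiv.swap_apply_right] at n ⊢
          exact wr _ m n
      intro a b ha hb hab
      by_cases h1 : a = u ∨ a = q
      · exact one a b ha hb hab.ne h1
      by_cases h2 : b = u ∨ b = q
      · exact (one b a hb ha hab.ne.symm h2).symm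
      rw [not_or] at h1 h2
      simp only
      rw [Equiv.swap_apply_of_ne_of_ne h1.1 h1.2, Equiv.swap_apply_of_ne_of_ne h2.1 h2.2]
      exact c.hf.2 a b ha hb hab
  refine c.nR (pc.swapin c.leaf1 (t := y') (z := z) l.yy l.yx
    (fun a ha h => z1 (h ▸ c.fmem (sy a ha))) ?_ ?_)
  · intro a _ hadj
    rw [l.leaf.2 a hadj, Equiv.swap_apply_right]; exact z2.symm
  · have n := sne y' x1 l.yy c.xy1 l.yx
    rw [Equiv.swap_apply_of_ne_of_ne ux.symm l.qx.symm] at n ⊢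
    exact c.red _ (c.fmem (sy y' l.yy)) n

omit [Fintype α] in
/-- three full vertices force the second tree to be dominated by two vertices -/
lemma dom (c : Cf T1 T2 R B y1 x1 y2 x2 f g t C k) {a b d : V} (ha : Lp B C a) (hb : Lp B C b)
    (hd : Lp B C d) (hab : a ≠ b) (had : a ≠ d) (hbd : b ≠ d) (u : α) (h1 : u ≠ x2)
    (h2 : u ≠ t) : T2.Adj x2 u ∨ T2.Adj t u := by
  by_contra hcon
  rw [not_or] at hcon
  have uy : u ≠ y2 := by rintro rfl; exact hcon.1 c.leaf2.1.symm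
  obtain ⟨g', p, e1, e2, e3⟩ := c.gen ha hb hab
  refine c.nB (p.swapin c.leaf2 (t := u) (z := d) uy h1 ?_ ?_ ?_)
  · intro w hw he
    by_cases b1 : w = x2
    · rw [b1, e1] at he; exact had he
    by_cases b2 : w = t
    · rw [b2, e2] at he; exact hbd he
    exact e3 w hw b1 b2 (he ▸ hd.1)
  · intro w hw hadj
    refine hd.2 _ (e3 w hw ?_ ?_)
    · rintro rfl; exact hcon.1 hadj.symm
    · rintro rfl; exact hcon.2 hadj.symm
  · rw [e1]; exact ha.2 _ (e3 u uy h1 h2)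

end Cf

end Pool.Agent.Lib.MP_06e9af_co
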