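import Pool.Agent.Lib.MP_06e9af_co.Main

/-!
Degree sums: the counting bound in terms of degrees, and the two-tree counting step.
-/

namespace Pool.Agent.Lib.MP_06e9af_co

open Finset

variable {α V : Type*} [Fintype V] [DecidableEq V]

lemma deg_le_mk (G : SimpleGraph V) :
    (∑ v, (nb G v).card) * (Arr V).ncard ≤ (Mk G).ncard * Fintype.card V := by
  classical
  rcases isEmpty_or_nonempty V with hV | ⟨⟨v0⟩⟩
  · simp
  set S : Finset (List V) := (arr_finite (V := V)).toFinset with hS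
  have mS : ∀ l, l ∈ S ↔ l ∈ Arr V := by simp [hS]
  have cS : (Arr V).ncard = S.card := Set.ncard_eq_toFinset_card _ arr_finite
  let hd : List V → V := fun l => l.headD v0
  have sw : ∀ u v : V, ∀ l ∈ S.filter (fun l => hd l = u),
      l.map (Equiv.swap u v) ∈ S.filter (fun l => hd l = v) := by
    intro u v l hl
    rw [mem_filter, mS] at hl ⊢
    obtain ⟨⟨h1, h2⟩, h3⟩ := hl
    refine ⟨⟨h1.map (Equiv.swap u v).injective, fun w => ?_⟩, ?_⟩
    · exact List.mem_map.mpr ⟨Equiv.swap u v w, h2 _, by simp⟩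
    · cases l with
      | nil => exact absurd (h2 v0) (by simp)
      | cons a l =>
        have : a = u := h3
        subst this
        simp [hd]
  have eqc : ∀ u v : V, (S.filter (fun l => hd l = u)).card ≤
      (S.filter (fun l => hd l = v)).card := fun u v =>
    card_le_card_of_injOn (List.map (Equiv.swap u v)) (fun l hl => sw u v l hl)
      (fun a _ b _ h => List.map_injective_iff.mpr (Equiv.swap u v).injective h)
  set c := (S.filter (fun l => hd l = v0)).card with hc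
  have ec : ∀ u, (S.filter (fun l => hd l = u)).card = c := fun u => le_antisymm (eqc _ _) (eqc _ _)
  have h1 : S.card = Fintype.card V * c := by
    rw [card_eq_sum_card_fiberwise (f := hd) (t := univ) (fun _ _ => mem_univ _)]
    simp [ec]
  have h2 : ∑ l ∈ S, (nb G (hd l)).card = (∑ v, (nb G v).card) * c := by
    rw [← sum_fiberwise_of_maps_to (s := S) (t := univ) (g := hd) (fun _ _ => mem_univ _), sum_mul]
    refine sum_congr rfl (fun v _ => ?_)
    rw [sum_congr rfl (g := fun _ => (nb G v).card) (fun l hl => by rw [(mem_filter.mp hl).2])]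
    simp [ec, mul_comm]
  have h3 : ∑ l ∈ S, (nb G (hd l)).card ≤ (Mk G).ncard := by
    rw [← card_sigma, ← Set.ncard_coe_finset]
    refine ncard_le_of_rel (mk_finite G) (fun p q => flat q = p.1 ∧ q.2.2.1 = p.2) ?_ ?_
    · rintro ⟨l, w⟩ hp
      simp only [coe_sigma, Set.mem_sigma_iff, mem_coe, mem_nb, mS] at hp
      obtain ⟨hl, hw⟩ := hp
      cases l with
      | nil => exact absurd (hl.2 v0) (by simp)
      | cons a l =>
        have ha : G.Adj a w := hw
        have : w ∈ l := by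
          rcases List.mem_cons.mp (hl.2 w) with h | h
          · exact absurd h.symm ha.ne
          · exact h
        obtain ⟨P, Q, rfl⟩ := List.append_of_mem this
        exact ⟨(a, P, w, Q), ⟨hl, ha⟩, rfl, rfl⟩
    · rintro ⟨l, w⟩ - ⟨l', w'⟩ - q ⟨a1, a2⟩ ⟨b1, b2⟩
      simp only at a1 a2 b1 b2
      subst a1 a2
      subst b1 b2
      rfl
  rw [cS, h1, ← h2.symm.le.antisymm h2.le] at *
  calc (∑ v, (nb G v).card) * (Fintype.card V * c)
      = ((∑ v, (nb G v).card) * c) * Fintype.card V := by ring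
    _ ≤ (Mk G).ncard * Fintype.card V := Nat.mul_le_mul_right _ h3

omit [DecidableEq V] in
lemma arr_pos : 0 < (Arr V).ncard := by
  classical
  rw [Set.ncard_pos arr_finite]
  exact ⟨(univ : Finset V).toList, Finset.nodup_toList _, fun u => by simp⟩

variable [DecidableEq α] [Fintype α] {T : SimpleGraph α} {G R B : SimpleGraph V}

lemma es_deg {y x : α} (hl : LeafOf T y x) (hRT : RT T (univ.erase y) x) {k : ℕ}
    (hα : Fintype.card α = k + 1) (hG : ¬ Cp T G) :
    ∑ v, (nb G v).card ≤ (k - 1) * Fintype.card V := by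
  have hU : (univ.erase y).card = k := by simp [hα]
  have b := (hRT.bound (G := G)).1
  rw [← mk_eq_eps hl hG, hU] at b
  have d := deg_le_mk G
  have p := arr_pos (V := V)
  have hk : 1 ≤ k := by rw [← hU]; exact card_pos.mpr ⟨x, hRT.root_mem⟩
  obtain ⟨j, rfl⟩ : ∃ j, k = j + 1 := ⟨k - 1, by omega⟩
  have b' : (Mk G).ncard ≤ j * (Arr V).ncard := by rw [add_mul] at b; omega
  refine Nat.le_of_mul_le_mul_right (d.trans ?_) p
  calc (Mk G).ncard * Fintype.card V ≤ j * (Arr V).ncard * Fintype.card V :=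
        Nat.mul_le_mul_right _ b'
    _ = (j + 1 - 1) * Fintype.card V * (Arr V).ncard := by simp only [Nat.add_sub_cancel]; ring

lemma es_deg_strict (htri : ∀ a b c, T.Adj a b → T.Adj b c → ¬ T.Adj a c) {y x : α}
    (hl : LeafOf T y x) (hRT : RT T (univ.erase y) x) {k : ℕ}
    (hα : Fintype.card α = k + 1) (hG : ¬ Cp T G) (hns : ∃ u, u ≠ x ∧ ¬ T.Adj x u)
    (hch : Cherry G (k - 1)) :
    ∑ v, (nb G v).card < (k - 1) * Fintype.card V := by
  have hU : (univ.erase y).card = k := by simp [hα]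
  have hk : 1 ≤ k := by rw [← hU]; exact card_pos.mpr ⟨x, hRT.root_mem⟩
  obtain ⟨u, hu, hu'⟩ := hns
  have b := (hRT.strict htri hch (by omega)).1 ⟨u, by
    simp only [mem_erase, mem_univ, and_true]; rintro rfl; exact hu' hl.1.symm, hu, hu'⟩
  rw [← mk_eq_eps hl hG, hU] at b
  have d := deg_le_mk G
  obtain ⟨v, -⟩ := hch
  have pV : 0 < Fintype.card V := Fintype.card_pos_iff.mpr ⟨v⟩
  obtain ⟨j, rfl⟩ : ∃ j, k = j + 1 := ⟨k - 1, by omega⟩
  have b' : (Mk G).ncard < j * (Arr V).ncard := by rw [add_mul] at b; omega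
  refine Nat.lt_of_mul_lt_mul_right (a := (Arr V).ncard) (d.trans_lt ?_)
  calc (Mk G).ncard * Fintype.card V < j * (Arr V).ncard * Fintype.card V :=
        Nat.mul_lt_mul_of_pos_right b' pV
    _ = (j + 1 - 1) * Fintype.card V * (Arr V).ncard := by simp only [Nat.add_sub_cancel]; ring

lemma deg_ge (hc : Col R B) {y x : α} (hl : LeafOf T y x) (hRT : RT T (univ.erase y) x) {j : ℕ}
    (hα : Fintype.card α = j + 3) (hV : Fintype.card V = 2 * j + 2) (hB : ¬ Cp T B) :
    j * (2 * j + 2) ≤ ∑ v, (nb R v).card := by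
  have h1 := es_deg hl hRT (k := j + 2) hα hB
  have h2 : ∑ _v : V, (2 * j + 1) ≤ ∑ v, ((nb R v).card + (nb B v).card) :=
    sum_le_sum (fun v _ => by have := hc.deg v; omega)
  rw [sum_const, card_univ, smul_eq_mul, sum_add_distrib] at h2
  rw [hV] at h1 h2
  have e : j + 2 - 1 = j + 1 := rfl
  rw [e] at h1
  nlinarith

omit [DecidableEq α] [Fintype α] in
lemma cross (G : SimpleGraph V) (C D : Finset V) :
    ∑ c ∈ C, (nb G c ∩ D).card = ∑ z ∈ D, (nb G z ∩ C).card := by
  classical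
  have e : ∀ (X : Finset V) (u : V), (nb G u ∩ X).card = ∑ w ∈ X, if G.Adj u w then 1 else 0 := by
    intro X u
    rw [← card_filter]; congr 1; ext w; simp [and_comm]
  simp only [e]
  rw [sum_comm]
  refine sum_congr rfl (fun z _ => sum_congr rfl (fun c _ => ?_))
  simp only [G.adj_comm]

omit [DecidableEq α] [Fintype α] in
lemma nb_split (G : SimpleGraph V) (C : Finset V) (u : V) :
    (nb G u).card = (nb G u ∩ C).card + (nb G u ∩ Cᶜ).card := by
  rw [← card_inter_add_card_sdiff (nb G u) C, sdiff_eq_inter_compl]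

omit [DecidableEq α] [Fintype α] in
lemma dsum (G : SimpleGraph V) (C : Finset V) :
    ∑ v, (nb G v).card = ∑ c ∈ C, ((nb G c ∩ C).card + 2 * (nb G c ∩ Cᶜ).card) +
      ∑ z ∈ Cᶜ, (nb G z ∩ Cᶜ).card := by
  rw [← sum_add_sum_compl C]
  simp only [nb_split G C, sum_add_distrib, ← mul_sum]
  rw [← cross G C Cᶜ]
  ring

omit [DecidableEq V] in
theorem count_step2 {T1 T2 : SimpleGraph α} (hc : ∀ u w, u ≠ w → R.Adj u w ∨ B.Adj u w)
    (tri1 : ∀ a b c, T1.Adj a b → T1.Adj b c → ¬ T1.Adj a c)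
    (tri2 : ∀ a b c, T2.Adj a b → T2.Adj b c → ¬ T2.Adj a c)
    {y x y' x' : α} (hl : LeafOf T1 y x) (hRT : RT T1 (univ.erase y) x)
    (hl' : LeafOf T2 y' x') (hRT' : RT T2 (univ.erase y') x')
    {k : ℕ} (hk : 2 ≤ k) (hα : Fintype.card α = k + 1) (hV : Fintype.card V = 2 * k - 2)
    (hns : ∀ a, a ≠ y → ∃ u, u ≠ y ∧ u ≠ a ∧ ¬ T1.Adj a u)
    (hns' : ∀ a, a ≠ y' → ∃ u, u ≠ y' ∧ u ≠ a ∧ ¬ T2.Adj a u)
    (hR : ¬ Cp T1 R) (hB : ¬ Cp T2 B)
    (hY : ∀ f g, PC T1 R y f → PC T2 B y' g → f x ≠ g x')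
    (hch : Cherry R (k - 1) ∨ Cherry B (k - 1)) : False := by
  have hU : ∀ y : α, (univ.erase y).card = k := by simp [hα]
  have hne : ∀ y x : α, univ.erase y ≠ {x} := by
    intro y x h; have := hU y; rw [h] at this; simp at this; omega
  have n1 : ∀ a ∈ univ.erase y, ∃ u ∈ univ.erase y, u ≠ a ∧ ¬ T1.Adj a u := by
    intro a ha
    obtain ⟨u, h1, h2, h3⟩ := hns a (by simpa using ha)
    exact ⟨u, by simpa using h1, h2, h3⟩
  have n2 : ∀ a ∈ univ.erase y', ∃ u ∈ univ.erase y', u ≠ a ∧ ¬ T2.Adj a u := by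
    intro a ha
    obtain ⟨u, h1, h2, h3⟩ := hns' a (by simpa using ha)
    exact ⟨u, by simpa using h1, h2, h3⟩
  have t := mk_total hc
  rw [mk_eq_eps hl hR, mk_eq_eps hl' hB, hV] at t
  have e1 := eps_le (T := T1) (G := R) (univ.erase y) x
  have e2 := eps_le (T := T2) (G := B) (univ.erase y') x'
  have b1 := (hRT.bound (G := R)).2 (hne _ _)
  have b2 := (hRT'.bound (G := B)).2 (hne _ _)
  have p1 := piv_le_of (T := T1) (G := R) (univ.erase y) x
    {l | l ∈ Arr V ∧ ∃ f, PC T1 R y f ∧ l.head? = some (f x)} (fun _ h => h.1) (by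
      rintro ⟨v, P, w, Q⟩ ⟨h1, -, h3⟩
      obtain ⟨f, a1, a2, -⟩ := h3.pc
      exact ⟨h1.1, f, a1, by simp [flat, a2]⟩)
  have p2 := piv_le_of (T := T2) (G := B) (univ.erase y') x'
    {l | l ∈ Arr V ∧ ∃ f, PC T2 B y' f ∧ l.head? = some (f x')} (fun _ h => h.1) (by
      rintro ⟨v, P, w, Q⟩ ⟨h1, -, h3⟩
      obtain ⟨f, a1, a2, -⟩ := h3.pc
      exact ⟨h1.1, f, a1, by simp [flat, a2]⟩)
  have p3 : {l | l ∈ Arr V ∧ ∃ f, PC T1 R y f ∧ l.head? = some (f x)}.ncard +
      {l | l ∈ Arr V ∧ ∃ f, PC T2 B y' f ∧ l.head? = some (f x')}.ncard ≤ (Arr V).ncard := by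
    rw [← Set.ncard_union_eq ?_ (arr_finite.subset (fun _ h => h.1))
      (arr_finite.subset (fun _ h => h.1))]
    · exact Set.ncard_le_ncard (by rintro l (h | h) <;> exact h.1) arr_finite
    · rw [Set.disjoint_left]
      rintro l ⟨-, f, a1, a2⟩ ⟨-, g, c1, c2⟩
      rw [a2] at c2
      exact hY f g a1 c1 (Option.some.inj c2)
  rw [hU] at b1 b2
  obtain ⟨j, rfl⟩ : ∃ j, k = j + 2 := ⟨k - 2, by omega⟩
  have e3 : (2 * (j + 2) - 2 - 1) * (Arr V).ncard = 2 * (j * (Arr V).ncard) + (Arr V).ncard := by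
    have : 2 * (j + 2) - 2 - 1 = 2 * j + 1 := by omega
    rw [this]; ring
  rw [e3] at t
  rw [add_mul] at b1 b2
  rcases hch with h | h
  · have := (hRT.strict tri1 h (by rw [hU]; omega)).2 n1
    rw [hU, add_mul] at this
    omega
  · have := (hRT'.strict tri2 h (by rw [hU]; omega)).2 n2
    rw [hU, add_mul] at this
    omega

end Pool.Agent.Lib.MP_06e9af_co
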