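import Pool.Agent.Lib.MP_06e9af_co.U.Deg

/-!
Trees dominated by two non-adjacent vertices.
-/

namespace Pool.Agent.Lib.MP_06e9af_co

open Finset

variable {α V : Type*}

lemma PS.down {T : SimpleGraph α} {x : α} {h : α → ℕ} {par : α → α} (P : PS T x h par) (q : α) :
    ∀ (mid : List α) (a : α), (a :: (mid ++ [q])).Nodup → (a :: (mid ++ [q])).IsChain T.Adj →
      (a ≠ x → par a ∉ mid ++ [q]) → h q = h a + mid.length + 1 := by
  intro mid
  induction mid with
  | nil =>
    intro a _ hc hp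
    have hadj : T.Adj a q := by simpa using hc
    rcases P.edge a q hadj with ⟨c1, c2⟩ | ⟨c1, c2⟩
    · exact absurd (by simp [c2]) (hp c1)
    · have := (P.up q c1).2
      rw [c2] at this
      simp only [List.length_nil]; omega
  | cons b m ih =>
    intro a hn hc hp
    rw [List.cons_append] at hn hc hp
    rw [List.isChain_cons_cons] at hc
    rw [List.nodup_cons] at hn
    rcases P.edge a b hc.1 with ⟨c1, c2⟩ | ⟨c1, c2⟩
    · exact absurd (by simp [c2]) (hp c1)
    · have h1 := (P.up b c1).2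
      rw [c2] at h1
      have h2 := ih b hn.2 hc.2 (fun _ hm => hn.1 (List.mem_cons_of_mem _ (c2 ▸ hm)))
      simp only [List.length_cons]; omega

lemma dom_DB [Fintype α] {T : SimpleGraph α} (hT : T.IsTree)
    (hns : ∀ c, ∃ u, u ≠ c ∧ ¬ T.Adj c u)
    (NS : ∀ y x, LeafOf T y x → ∀ a, a ≠ y → ∃ u, u ≠ y ∧ u ≠ a ∧ ¬ T.Adj a u)
    {y x t : α} (hy : LeafOf T y x) (hxt : t ≠ x) (hn : ¬ T.Adj x t)
    (hdom : ∀ c, c ≠ x → c ≠ t → T.Adj x c ∨ T.Adj t c) :
    ∃ q A Bq mid, DB T V x q A Bq mid ∧ 0 < A.card ∧ 0 < Bq.card ∧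
      (mid.length = 1 ∨ mid.length = 2) := by
  obtain ⟨h, par, P⟩ := exists_PS hT x
  have r0 := P.root
  have one : ∀ u, T.Adj x u → h u = 1 := by
    intro u hu
    have := P.depth_adj hu
    omega
  have two : ∀ u, u ≠ x → ¬ T.Adj x u → 2 ≤ h u := by
    intro u h1 h2
    obtain ⟨a1, a2⟩ := P.up u h1
    by_contra hcon
    have : par u = x := P.eq_root (by omega)
    exact h2 (this ▸ a1.symm)
  have t2 := two t hxt hn
  obtain ⟨u1, u2⟩ := P.up t hxt
  have t3 : h t ≤ 3 := by
    have px : par t ≠ x := fun e => hn (e ▸ u1.symm)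
    have u3 := (P.up _ px).2
    by_cases e : par (par t) = x
    · rw [e] at u3; omega
    rcases hdom _ e (fun e' => by rw [e'] at u3; omega) with a | a
    · have := one _ a; omega
    · have := P.depth_adj a; omega
  have xnl : ∀ c, ¬ LeafOf T x c := fun c => leaf_not_parent hT hns hy
  have fin : ∀ q y', q ≠ x → LeafOf T y' q → (∀ a b, LeafOf T a b → b = x ∨ b = q) →
      2 ≤ h q → h q ≤ 3 → ∃ q A Bq mid, DB T V x q A Bq mid ∧ 0 < A.card ∧ 0 < Bq.card ∧
      (mid.length = 1 ∨ mid.length = 2) := by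
    intro q y' hq hy' hall b1 b2
    obtain ⟨A, Bq, mid, D⟩ := exists_DB (V := V) hT hns hq.symm hy hy' hall
    have := P.down q mid x D.nodup D.chain (fun e => absurd rfl e)
    exact ⟨q, A, Bq, mid, D, card_pos.mpr ⟨y, (D.hA y).mpr hy⟩,
      card_pos.mpr ⟨y', (D.hB y').mpr hy'⟩, by omega⟩
  by_cases hl : ∃ p, LeafOf T t p
  · obtain ⟨p, hp⟩ := hl
    have e : par t = p := hp.2 _ u1
    obtain ⟨u, a1, a2, a3⟩ := NS t p hp x hxt.symm
    have e' : u = p := hp.2 u ((hdom u a2 a1).resolve_left a3)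
    subst e'
    refine fin u t a2 hp ?_ (two u a2 a3) (by rw [e] at u2; omega)
    intro a b hab
    by_cases c1 : a = t
    · exact Or.inr (hp.2 b (c1 ▸ hab.1))
    by_cases c2 : a = x
    · exact absurd (c2 ▸ hab) (xnl b)
    rcases hdom a c2 c1 with c | c
    · exact Or.inl (hab.2 x c.symm).symm
    · exact absurd hp (leaf_not_parent hT hns ((hab.2 t c.symm).symm ▸ hab))
  · push Not at hl
    obtain ⟨w, w1, w2⟩ : ∃ w, w ≠ x ∧ par w = t := by
      by_contra hcon
      push Not at hcon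
      exact hl _ (P.leaf_of_nochild hxt hcon)
    have w3 := (P.up w w1).2
    rw [w2] at w3
    have wl : LeafOf T w t := by
      rw [← w2]
      refine P.leaf_of_nochild w1 (fun z z1 z2 => ?_)
      have z3 := (P.up z z1).2
      rw [z2] at z3
      rcases hdom z z1 (fun e => by rw [e] at z3; omega) with a | a
      · have := one _ a; omega
      · have := P.depth_adj a; omega
    refine fin t w hxt wl ?_ t2 t3
    intro a b hab
    by_cases c1 : a = t
    · exact absurd (c1 ▸ hab) (hl b)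
    by_cases c2 : a = x
    · exact absurd (c2 ▸ hab) (xnl b)
    rcases hdom a c2 c1 with c | c
    · exact Or.inl (hab.2 x c.symm).symm
    · exact Or.inr (hab.2 t c.symm).symm

end Pool.Agent.Lib.MP_06e9af_co
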