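import Pool.Agent.Lib.MP_06e9af_co.U.Deg

/-!
Two trees, the blue one of maximum degree `k - 1`.
-/

namespace Pool.Agent.Lib.MP_06e9af_co

open Finset

variable {α β V : Type*} [DecidableEq α] [Fintype α] [DecidableEq β] [Fintype β] [Fintype V]
  [DecidableEq V] {T : SimpleGraph α} {S : SimpleGraph β} {R B : SimpleGraph V}

omit [Fintype V] in
lemma near_emb (htri : ∀ a b c, T.Adj a b → T.Adj b c → ¬ T.Adj a c) {k : ℕ}
    (hα : Fintype.card α = k + 1) {y x a : α} (hy : LeafOf T y x) (hay : a ≠ y) (hax : a ≠ x)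
    (ha : ∀ u, u ≠ y → u ≠ a → T.Adj a u) {v w z : V} {A : Finset V} (a2 : A.card = k - 1)
    (mA : ∀ u ∈ A, R.Adj v u) (hw : w ∈ A) (hz : z ∉ insert v A) (hwz : R.Adj w z) :
    Cp T R := by
  have vA : v ∉ A := fun h => (mA v h).ne rfl
  have hxy : x ≠ y := hy.1.ne.symm
  obtain ⟨e, e1, e2⟩ := exists_inj (((univ.erase y).erase a).erase x) (A.erase w) v (by
    rw [card_erase_of_mem (by simp [hxy, hax.symm]), card_erase_of_mem (by simp [hay]),
      card_erase_of_mem (by simp), card_erase_of_mem hw, card_univ]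
    omega)
  simp only [mem_erase, mem_univ, and_true] at e1 e2
  set f : α → V := fun u => if u = a then v else if u = x then w else e u with hf
  have fa : f a = v := by simp [hf]
  have fx : f x = w := by simp [hf, hax.symm]
  have fo : ∀ u, u ≠ a → u ≠ x → f u = e u := fun u h1 h2 => by simp [hf, h1, h2]
  have fA : ∀ u, u ≠ y → u ≠ a → f u ∈ A := by
    intro u h1 h2
    by_cases h : u = x
    · rw [h, fx]; exact hw
    · rw [fo u h2 h]; exact (e2 u ⟨h, h2, h1⟩).2
  have pc : PC T R y f := by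
    constructor
    · intro u u' h1 h2 he
      by_cases b1 : u = a <;> by_cases b2 : u' = a
      · rw [b1, b2]
      · rw [b1, fa] at he; exact absurd (he ▸ fA u' h2 b2) vA
      · rw [b2, fa] at he; exact absurd (he ▸ fA u h1 b1) vA
      by_cases c1 : u = x <;> by_cases c2 : u' = x
      · rw [c1, c2]
      · rw [c1, fx, fo u' b2 c2] at he; exact absurd he.symm (e2 u' ⟨c2, b2, h2⟩).1
      · rw [c2, fx, fo u b1 c1] at he; exact absurd he (e2 u ⟨c1, b1, h1⟩).1
      · rw [fo u b1 c1, fo u' b2 c2] at he; exact e1 u ⟨c1, b1, h1⟩ u' ⟨c2, b2, h2⟩ he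
    · intro u u' h1 h2 he
      by_cases b1 : u = a <;> by_cases b2 : u' = a
      · rw [b1, b2] at he; exact absurd he (T.loopless.irrefl _)
      · rw [b1, fa]; exact mA _ (fA u' h2 b2)
      · rw [b2, fa]; exact (mA _ (fA u h1 b1)).symm
      · exact absurd (ha u' h2 b2) (htri a u u' (ha u h1 b1) he)
  refine pc.extend hy (z := z) ?_ (fx ▸ hwz)
  intro u hu he
  refine hz ?_
  by_cases b : u = a
  · rw [← he, b, fa]; exact mem_insert_self _ _
  · exact mem_insert_of_mem (he ▸ fA u hu b)

/-- the blue tree `S` has maximum degree `k - 1` -/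
theorem maxdeg (hc : Col R B) (hT : T.IsTree) (hns : ∀ c, ∃ u, u ≠ c ∧ ¬ T.Adj c u)
    (hS : S.IsTree) {k : ℕ} (hk : 4 ≤ k) (hα : Fintype.card α = k + 1)
    (hβ : Fintype.card β = k + 1) (hV : Fintype.card V = 2 * k - 2) {y x a : β}
    (hy : LeafOf S y x) (hay : a ≠ y) (hax : a ≠ x) (ha : ∀ u, u ≠ y → u ≠ a → S.Adj a u) :
    Cp T R ∨ Cp S B := by
  by_contra hcon
  rw [not_or] at hcon
  obtain ⟨nR, nB⟩ := hcon
  have hb : Bip T V k := bip_of_tree hT hns hk hα
  obtain ⟨h, par, P⟩ := exists_PS hS a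
  have hxy : x ≠ y := hy.1.ne.symm
  have low : ∀ v, (nb B v).card ≤ k - 2 := by
    intro v
    by_contra hv
    obtain ⟨A, a1, a2⟩ := exists_subset_card_eq (show k - 1 ≤ (nb B v).card by omega)
    have mA : ∀ u ∈ A, B.Adj v u := fun u hu => mem_nb.mp (a1 hu)
    have vA : v ∉ A := fun h => (mA v h).ne rfl
    refine nR (hb R A (insert v A)ᶜ ?_ ?_ a2.ge ?_)
    · rw [disjoint_left]; intro u hu h; exact (mem_compl.mp h) (mem_insert_of_mem hu)
    · intro u hu z hz
      exact hc.red (fun h => (mem_compl.mp hz) (mem_insert_of_mem (h ▸ hu)))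
        (fun hb' => nB (near_emb P.tri hβ hy hay hax ha a2 mA hu (mem_compl.mp hz) hb'))
    · rw [card_compl, card_insert_of_notMem vA, hV]; omega
  have high : ∀ v, k - 1 ≤ (nb R v).card := by
    intro v; have := hc.deg v; have := low v; omega
  by_cases hch : Cherry R (k - 1)
  · have hU : (univ.erase y).card = k := by simp [hβ]
    have aU : a ∈ univ.erase y := by simpa using hay
    have rt : RT S (univ.erase y) a := by
      refine P.rt _ aU ?_
      intro u _ hua
      simp only [mem_erase, mem_univ, and_true]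
      intro hp
      have h1 := P.up u hua
      have hux : u = x := hy.2 u (hp ▸ h1.1.symm)
      have h2 := P.depth_adj (ha x hxy hax.symm)
      have h3 := h1.2
      rw [hp, hux] at h3
      rw [P.root] at h2
      exact hay (P.eq_root (show h y = 0 by omega)).symm
    have e1 : Mk B = betS S B (univ.erase y) a := by
      ext q
      refine ⟨fun hq => ⟨hq, ?_⟩, fun hq => hq.1⟩
      rintro ⟨f, f1, f2, -, f4⟩
      have : ((univ.erase y).erase a).card ≤ (nb B q.1).card := by
        refine card_le_card_of_injOn f ?_ ?_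
        · intro u hu
          have hu' : u ≠ a ∧ u ≠ y :=
            ⟨ne_of_mem_erase hu, ne_of_mem_erase (mem_of_mem_erase hu)⟩
          have := f4 a aU u (by simpa using hu'.2) (ha u hu'.2 hu'.1)
          rw [f2] at this
          simpa using this
        · exact f1.mono (by intro u hu; exact mem_of_mem_erase hu)
      rw [card_erase_of_mem aU, hU] at this
      have := low q.1
      omega
    have b1 := (rt.bound (G := B)).2 (by intro h; rw [h] at hU; simp at hU; omega)
    obtain ⟨x1, y1, q, y', -, hy1, -⟩ := exists_two_leafparents hT hns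
    obtain ⟨h1, par1, P1⟩ := exists_PS hT x1
    have hU1 : (univ.erase y1).card = k := by simp [hα]
    have s1 := ((P1.rt_leaf hy1).strict P1.tri hch (by omega)).1 (by
      obtain ⟨u, u1, u2⟩ := hns x1
      refine ⟨u, ?_, u1, u2⟩
      simp only [mem_erase, mem_univ, and_true]
      rintro rfl
      exact u2 hy1.1.symm)
    have t := mk_total (R := R) (B := B) (fun u w huw => by have := hc u w huw; tauto)
    rw [mk_eq_eps hy1 nR, e1, hV] at t
    rw [hU] at b1
    rw [hU1] at s1
    obtain ⟨j, rfl⟩ : ∃ j, k = j + 2 := ⟨k - 2, by omega⟩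
    have e3 : (2 * (j + 2) - 2 - 1) * (Arr V).ncard
        = 2 * (j * (Arr V).ncard) + (Arr V).ncard := by
      have : 2 * (j + 2) - 2 - 1 = 2 * j + 1 := by omega
      rw [this]; ring
    rw [e3] at t
    rw [add_mul] at b1 s1
    omega
  · have all : ∀ u w, u ≠ w → R.Adj u w := by
      intro u w huw
      by_contra hn
      have dj : Disjoint (nb R u) (nb R w) := by
        rw [disjoint_left]
        intro c c1 c2
        exact hch ⟨u, c, w, mem_nb.mp c1, (mem_nb.mp c2).symm, huw, hn,
          by rw [ncard_nb]; exact high c⟩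
      have sub : nb R u ∪ nb R w ⊆ univ.erase u := by
        intro c hc'
        simp only [mem_erase, mem_univ, and_true]
        rintro rfl
        rcases mem_union.mp hc' with h' | h'
        · exact (mem_nb.mp h').ne rfl
        · exact hn (mem_nb.mp h').symm
      have := card_le_card sub
      rw [card_union_of_disjoint dj, card_erase_of_mem (mem_univ _), card_univ, hV] at this
      have := high u
      have := high w
      omega
    obtain ⟨v0⟩ : Nonempty V := Fintype.card_pos_iff.mp (by omega)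
    obtain ⟨e, e1, -⟩ := exists_inj (univ : Finset α) (univ : Finset V) v0 (by
      rw [card_univ, card_univ]; omega)
    exact nR ⟨e, fun a b h => e1 a (mem_univ _) b (mem_univ _) h,
      fun u u' h => all _ _ (fun he => h.ne (e1 u (mem_univ _) u' (mem_univ _) he))⟩

omit [DecidableEq α] in
lemma no_cherry2 {T1 T2 : SimpleGraph α} {R B : SimpleGraph V} (hc : Col R B) {k : ℕ}
    (hb : Bip T2 V k) (hk : 4 ≤ k) (hα : Fintype.card α = k + 1)
    (hV : Fintype.card V = 2 * k - 2) (hn : ¬ Cherry R (k - 1))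
    {v : V} (hv : k - 1 ≤ (nb R v).card) : Cp T1 R ∨ Cp T2 B := by
  have vN : v ∉ nb R v := by simp
  have cl : ∀ a ∈ nb R v, ∀ b ∈ nb R v, a ≠ b → R.Adj a b := by
    intro a ha b hb hab
    by_contra h
    exact hn ⟨a, v, b, (mem_nb.mp ha).symm, mem_nb.mp hb, hab, h, by rw [ncard_nb]; exact hv⟩
  by_cases hbig : k ≤ (nb R v).card
  · left
    obtain ⟨e, e1, e2⟩ := exists_inj (univ : Finset α) (insert v (nb R v)) v (by
      rw [card_insert_of_notMem vN, card_univ]; omega)
    refine ⟨e, fun a b h => e1 a (mem_univ _) b (mem_univ _) h, fun u u' h => ?_⟩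
    have hne : e u ≠ e u' := fun he => h.ne (e1 u (mem_univ _) u' (mem_univ _) he)
    rcases mem_insert.mp (e2 u (mem_univ _)) with h1 | h1 <;>
      rcases mem_insert.mp (e2 u' (mem_univ _)) with h2 | h2
    · exact absurd (h1.trans h2.symm) hne
    · rw [h1]; exact mem_nb.mp h2
    · rw [h2]; exact (mem_nb.mp h1).symm
    · exact cl _ h1 _ h2 hne
  · right
    refine hb B (nb R v) (insert v (nb R v))ᶜ ?_ ?_ hv ?_
    · rw [disjoint_left]; intro u hu h; exact (mem_compl.mp h) (mem_insert_of_mem hu)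
    · intro w hw z hz
      have hz' : z ≠ v ∧ ¬ R.Adj v z := by simpa using hz
      refine hc.blue (fun h => hz'.2 (h ▸ mem_nb.mp hw)) (fun h => hn ?_)
      refine ⟨v, w, z, mem_nb.mp hw, h, hz'.1.symm, hz'.2, ?_⟩
      rw [ncard_nb]
      have : insert v ((nb R v).erase w) ⊆ nb R w := by
        intro u hu
        rcases mem_insert.mp hu with rfl | hu
        · exact mem_nb.mpr (mem_nb.mp hw).symm
        · exact mem_nb.mpr (cl w hw u (mem_of_mem_erase hu) (ne_of_mem_erase hu).symm)
      have := card_le_card this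
      rw [card_insert_of_notMem (fun h => vN (mem_of_mem_erase h)), card_erase_of_mem hw] at this
      omega
    · rw [card_compl, card_insert_of_notMem vN, hV]; omega

theorem near2 {T1 T2 : SimpleGraph α} {R B : SimpleGraph V} (h1 : T1.IsTree)
    (ns1 : ∀ c, ∃ u, u ≠ c ∧ ¬ T1.Adj c u) (h2 : T2.IsTree)
    (ns2 : ∀ c, ∃ u, u ≠ c ∧ ¬ T2.Adj c u) {k : ℕ} (hk : 4 ≤ k)
    (hα : Fintype.card α = k + 1) (hV : Fintype.card V = 2 * k - 2) (hc : Col R B)
    {y x a : α} (hy : LeafOf T1 y x) (hay : a ≠ y) (ha : ∀ u, u ≠ y → u ≠ a → T1.Adj a u) :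
    Cp T1 R ∨ Cp T2 B := by
  have hax : a ≠ x := by
    rintro rfl
    obtain ⟨u, u1, u2⟩ := ns1 a
    by_cases h : u = y
    · exact u2 (h ▸ hy.1.symm)
    · exact u2 (ha u h u1)
  exact (maxdeg hc.symm h2 ns2 h1 hk hα hα hV hy hay hax ha).symm

end Pool.Agent.Lib.MP_06e9af_co
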