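import Pool.Agent.Lib.MP_06e9af_co.U.Deg

/-!
Two trees: the case of three points joined to the whole outside part.
-/

namespace Pool.Agent.Lib.MP_06e9af_co

open Finset

variable {α V : Type*} [DecidableEq α] [Fintype α] [Fintype V] [DecidableEq V]

/-- data of the case of at least three special points -/
structure Lsys (B : SimpleGraph V) (C L : Finset V) (k : ℕ) : Prop where
  cardC : C.card = k
  cardD : Cᶜ.card = k - 2
  sub : L ⊆ C
  three : 3 ≤ L.card
  blue : ∀ a ∈ L, ∀ z, z ∉ C → B.Adj a z
  nblue : ∀ a ∈ L, ∀ w ∈ C, ¬ B.Adj a w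
  Wb : ∀ w ∈ C, w ∉ L → ∃ w' ∈ C, B.Adj w w'
  ne : ∃ w ∈ C, w ∉ L

variable {T : SimpleGraph α} {B : SimpleGraph V} {C L : Finset V} {k : ℕ} {x q : α}
  {A Bq : Finset α} {mid : List α}

omit [DecidableEq α] in
lemma Lsys.pick (S : Lsys B C L k) (D : DB T V x q A Bq mid) {v e : V} (hv : v ∈ L)
    (m : List V) (sm Y : Finset V) (hm : m.length = mid.length)
    (hn : (v :: (m ++ [e])).Nodup) (hc : (v :: (m ++ [e])).IsChain B.Adj)
    (c2 : min A.card Bq.card ≤ sm.card)
    (g2 : ∀ z ∈ sm, B.Adj e z ∧ z ∉ v :: (m ++ [e]))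
    (hY : ∀ z, z ∉ C → (z ∈ sm ∨ z ∈ v :: (m ++ [e])) → z ∈ Y)
    (cY : max A.card Bq.card + Y.card ≤ k - 2) : Cp T B := by
  refine D.emb2 B v e m (Cᶜ \ Y) sm hm hn hc ?_ c2 ?_ ?_ g2
  · have := le_card_sdiff Y Cᶜ
    have := S.cardD
    omega
  · rw [disjoint_left]
    intro z hz h
    rw [mem_sdiff, mem_compl] at hz
    exact hz.2 (hY z hz.1 (Or.inl h))
  · intro z hz
    rw [mem_sdiff, mem_compl] at hz
    exact ⟨S.blue v hv z hz.1, fun h => hz.2 (hY z hz.1 (Or.inr h))⟩

omit [DecidableEq α] [Fintype α] in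
lemma Lsys.inC (S : Lsys B C L k) {c : V} (hc : c ∈ C) : (nb B c ∩ C).card ≤ k - 4 := by
  by_cases hL : c ∈ L
  · have : nb B c ∩ C = ∅ := by
      ext w; simp only [mem_inter, mem_nb, notMem_empty, iff_false, not_and]
      exact fun h hw => S.nblue c hL w hw h
    simp [this]
  · have h1 : nb B c ∩ C ⊆ (C \ L).erase c := by
      intro w hw
      rw [mem_inter, mem_nb] at hw
      exact mem_erase.mpr ⟨hw.1.ne.symm, mem_sdiff.mpr ⟨hw.2, fun h => S.nblue w h c hc hw.1.symm⟩⟩
    have h2 := card_le_card h1
    rw [card_erase_of_mem (mem_sdiff.mpr ⟨hc, hL⟩), card_sdiff_of_subset S.sub, S.cardC] at h2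
    have := S.three
    omega

omit [DecidableEq α] [Fintype α] in
lemma sub_nb (B : SimpleGraph V) (z : V) (X : Finset V) {j : ℕ}
    (h : j + X.card ≤ (nb B z).card) :
    ∃ B0 : Finset V, B0.card = j ∧ ∀ u ∈ B0, B.Adj z u ∧ u ∉ X := by
  have := le_card_sdiff X (nb B z)
  obtain ⟨B0, h1, h2⟩ := exists_subset_card_eq (show j ≤ (nb B z \ X).card by omega)
  exact ⟨B0, h2, fun u hu => by simpa using h1 hu⟩

lemma Lsys.sum_lt {T : SimpleGraph α} {B : SimpleGraph V} {C L : Finset V} {k : ℕ}
    (S : Lsys B C L k) {x q : α} {A Bq : Finset α} {mid : List α} (D : DB T V x q A Bq mid)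
    (pa : 0 < A.card) (pb : 0 < Bq.card) (hm : mid.length = 1 ∨ mid.length = 2)
    (hα : Fintype.card α = k + 1) (hB : ¬ Cp T B) :
    ∑ v, (nb B v).card < (k - 2) * (2 * k - 2) := by
  have hcard := D.card
  obtain ⟨v, v2, v3, hv, hv2, hv3, n12, n13, n23⟩ := two_lt_card_iff.mp (show 2 < L.card from S.three)
  have cv := S.sub hv
  have cv2 := S.sub hv2
  have cv3 := S.sub hv3
  have cD := S.cardD
  have cC := S.cardC
  have ne : ∀ {a z : V}, a ∈ C → z ∉ C → a ≠ z := fun ha hz h => hz (h ▸ ha)
  obtain ⟨m, hmin⟩ : ∃ m, min A.card Bq.card = m := ⟨_, rfl⟩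
  obtain ⟨M, hmax⟩ : ∃ M, max A.card Bq.card = M := ⟨_, rfl⟩
  have mM : m ≤ M := by omega
  have m1 : 1 ≤ m := by omega
  rcases hm with hm | hm
  · have hk : M + m + 2 = k := by omega
    have hW : ∀ w ∈ C, w ∉ L → (nb B w ∩ C).card + 2 * (nb B w ∩ Cᶜ).card ≤ k - 3 := by
      intro w hw hL
      rcases (nb B w ∩ Cᶜ).eq_empty_or_nonempty with h0 | ⟨s, hs⟩
      · have := S.inC hw
        rw [h0]; simp only [card_empty]; omega
      rw [mem_inter, mem_nb, mem_compl] at hs
      obtain ⟨w2, a1, a2⟩ := S.Wb w hw hL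
      have p1 : 0 < (nb B w ∩ C).card := card_pos.mpr ⟨w2, by simp [a1, a2]⟩
      have sp := nb_split B C w
      by_contra hcon
      obtain ⟨B0, b1, b2⟩ := sub_nb B w {s, w2} (j := m - 1) (by
        have := card_le_two (a := s) (b := w2); omega)
      have vw : ∀ u, B.Adj w u → u ≠ v := fun u h he => S.nblue v hv w hw (he ▸ h.symm)
      have wv : v ≠ w := fun h => hL (h ▸ hv)
      have w2B : w2 ∉ B0 := fun h => (b2 w2 h).2 (by simp)
      refine hB (S.pick D (e := w) hv [s] (insert w2 B0) (insert s B0) (by simp [hm]) ?_ ?_ ?_ ?_ ?_ ?_)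
      · simp [ne cv hs.2, wv, (ne hw hs.2).symm]
      · simp [S.blue v hv s hs.2, hs.1.symm]
      · rw [card_insert_of_notMem w2B]; omega
      · intro z hz
        rcases mem_insert.mp hz with rfl | hz
        · simp [a2, vw z a2, ne a1 hs.2, a2.ne.symm]
        · have := b2 z hz
          simp only [mem_insert, mem_singleton, not_or] at this
          simp [this.1, vw z this.1, this.2.1, this.1.ne.symm]
      · intro z hz h
        simp only [mem_insert, List.cons_append, List.nil_append, List.mem_cons,
          List.not_mem_nil, or_false] at h ⊢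
        rcases h with (rfl | h) | rfl | rfl | rfl
        · exact absurd a1 hz
        · exact Or.inr h
        · exact absurd cv hz
        · exact Or.inl rfl
        · exact absurd hw hz
      · have := card_insert_le s B0; omega
    have hL2 : L.card + 2 ≤ k := by
      obtain ⟨w, hw, hL⟩ := S.ne
      obtain ⟨w2, a1, a2⟩ := S.Wb w hw hL
      have : ({w, w2} : Finset V) ⊆ C \ L := by
        intro u hu
        rcases mem_insert.mp hu with rfl | hu
        · exact mem_sdiff.mpr ⟨hw, hL⟩
        · rw [mem_singleton.mp hu]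
          exact mem_sdiff.mpr ⟨a1, fun h => S.nblue w2 h w hw a2.symm⟩
      have h2 := card_le_card this
      rw [card_pair a2.ne, card_sdiff_of_subset S.sub] at h2
      omega
    have hD : ∀ z ∈ Cᶜ, (nb B z ∩ Cᶜ).card ≤ k - 2 - L.card := by
      intro z hz
      rw [mem_compl] at hz
      rcases (nb B z ∩ Cᶜ).eq_empty_or_nonempty with h0 | ⟨s, hs⟩
      · rw [h0]; simp
      rw [mem_inter, mem_nb, mem_compl] at hs
      have sp := nb_split B C z
      have hL : L.card ≤ (nb B z ∩ C).card := card_le_card (fun a ha => by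
        simp [S.sub ha, (S.blue a ha z hz).symm])
      by_contra hcon
      by_cases m2 : 2 ≤ m
      · obtain ⟨B0, b1, b2⟩ := sub_nb B z {v, v2, v3, s} (j := m - 2) (by
          have := card_le_four (a := v) (b := v2) (c := v3) (d := s); omega)
        have q3 : v3 ∉ B0 := fun h => (b2 _ h).2 (by simp)
        have q2 : v2 ∉ insert v3 B0 := by
          rw [mem_insert, not_or]; exact ⟨n23, fun h => (b2 _ h).2 (by simp)⟩
        refine hB (S.pick D (e := z) hv [s] (insert v2 (insert v3 B0)) (insert z (insert s B0))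
          (by simp [hm]) ?_ ?_ ?_ ?_ ?_ ?_)
        · simp [ne cv hs.2, ne cv hz, hs.1.ne.symm]
        · simp [S.blue v hv s hs.2, hs.1.symm]
        · rw [card_insert_of_notMem q2, card_insert_of_notMem q3]; omega
        · intro u hu
          rcases mem_insert.mp hu with rfl | hu
          · simp [(S.blue u hv2 z hz).symm, n12.symm, ne cv2 hs.2, ne cv2 hz]
          rcases mem_insert.mp hu with rfl | hu
          · simp [(S.blue u hv3 z hz).symm, n13.symm, ne cv3 hs.2, ne cv3 hz]
          · have := b2 u hu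
            simp only [mem_insert, mem_singleton, not_or] at this
            simp [this.1, this.2.1, this.2.2.2.2, this.1.ne.symm]
        · intro u hu h
          simp only [mem_insert, List.cons_append, List.nil_append, List.mem_cons,
            List.not_mem_nil, or_false] at h ⊢
          rcases h with (rfl | rfl | h) | rfl | rfl | rfl
          · exact absurd cv2 hu
          · exact absurd cv3 hu
          · exact Or.inr (Or.inr h)
          · exact absurd cv hu
          · exact Or.inr (Or.inl rfl)
          · exact Or.inl rfl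
        · have := card_insert_le s B0
          have := card_insert_le z (insert s B0)
          omega
      · have key : ∀ s, s ∉ C → s ≠ z → M ≤ (nb B z \ {v, v2, s}).card → False := by
          intro s s1 s2 hM
          refine hB (D.emb2 B z s [v] (nb B z \ {v, v2, s}) {v2} (by simp [hm]) ?_ ?_
            (by omega) (by simp only [card_singleton]; omega) (by simp) ?_ ?_)
          · simp [(ne cv hz).symm, s2.symm, ne cv s1]
          · simp [(S.blue v hv z hz).symm, S.blue v hv s s1]
          · intro u hu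
            simp only [mem_sdiff, mem_nb, mem_insert, mem_singleton, not_or] at hu
            simp [hu.1, hu.1.ne.symm, hu.2.1, hu.2.2.2]
          · intro u hu
            rw [mem_singleton.mp hu]
            simp [(S.blue v2 hv2 s s1).symm, ne cv2 hz, n12.symm, ne cv2 s1]
        by_cases hall : ∀ s, s ∉ C → s ≠ z → B.Adj z s
        · refine key s hs.2 hs.1.ne.symm ?_
          have h1 : Cᶜ.erase z ⊆ nb B z ∩ Cᶜ := by
            intro u hu
            rw [mem_erase, mem_compl] at hu
            simp [hu.2, hall u hu.2 hu.1]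
          have h2 := card_le_card h1
          rw [card_erase_of_mem (mem_compl.mpr hz)] at h2
          have := le_card_sdiff ({v, v2, s} : Finset V) (nb B z)
          have := card_le_three (a := v) (b := v2) (c := s)
          have := S.three
          omega
        · push Not at hall
          obtain ⟨s', s1, s2, s3⟩ := hall
          refine key s' s1 s2 ?_
          have h1 : nb B z \ {v, v2} ⊆ nb B z \ {v, v2, s'} := by
            intro u hu
            simp only [mem_sdiff, mem_nb, mem_insert, mem_singleton, not_or] at hu ⊢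
            exact ⟨hu.1, hu.2.1, hu.2.2, fun h => s3 (h ▸ hu.1)⟩
          have := card_le_card h1
          have := le_card_sdiff ({v, v2} : Finset V) (nb B z)
          have := card_le_two (a := v) (b := v2)
          omega
    have s1 := sum_le_card_nsmul _ _ _ hD
    have s2 : ∑ c ∈ C \ L, ((nb B c ∩ C).card + 2 * (nb B c ∩ Cᶜ).card) ≤ (C \ L).card • (k - 3) :=
      sum_le_card_nsmul _ _ _ (fun w hw => hW w (mem_sdiff.mp hw).1 (mem_sdiff.mp hw).2)
    have s3 : ∑ c ∈ L, ((nb B c ∩ C).card + 2 * (nb B c ∩ Cᶜ).card) ≤ L.card • (2 * (k - 2)) :=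
      sum_le_card_nsmul _ _ _ (fun c hc => by
        have h0 : nb B c ∩ C = ∅ := by
          ext w; simp only [mem_inter, mem_nb, notMem_empty, iff_false, not_and]
          exact fun h hw => S.nblue c hc w hw h
        have h1 := card_le_card (inter_subset_right (s₁ := nb B c) (s₂ := Cᶜ))
        rw [h0]; simp only [card_empty]; omega)
    rw [dsum B C, ← sum_sdiff S.sub]
    rw [card_sdiff_of_subset S.sub, cC, smul_eq_mul] at s2
    rw [cD, smul_eq_mul] at s1
    rw [smul_eq_mul] at s3
    have h3 := S.three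
    obtain ⟨i, hi⟩ : ∃ i, k = L.card + 2 + i := ⟨k - L.card - 2, by omega⟩
    obtain ⟨l, hl⟩ : ∃ l, L.card = l + 3 := ⟨L.card - 3, by omega⟩
    rw [hl] at s1 s2 s3 hi
    have e1 : k - 2 = l + 3 + i := by omega
    have e2 : k - 2 - (l + 3) = i := by omega
    have e3 : k - (l + 3) = i + 2 := by omega
    have e4 : k - 3 = l + 2 + i := by omega
    have e5 : 2 * k - 2 = 2 * (l + 4 + i) := by omega
    rw [e2, e1] at s1
    rw [e3, e4] at s2
    rw [e1] at s3
    rw [e1, e5]
    nlinarith
  · have hk : M + m + 3 = k := by omega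
    have hD : ∀ z ∈ Cᶜ, (nb B z ∩ Cᶜ).card + 2 * (nb B z ∩ Cᶜᶜ).card ≤ k - 1 := by
      intro z hz
      rw [mem_compl] at hz
      have sp := nb_split B Cᶜ z
      by_contra hcon
      obtain ⟨B0, b1, b2⟩ := sub_nb B z {v, v2, v3} (j := m - 1) (by
        have := card_le_three (a := v) (b := v2) (c := v3); omega)
      obtain ⟨s, hs⟩ : (Cᶜ \ insert z B0).Nonempty := by
        rw [← card_pos]
        have := le_card_sdiff (insert z B0) Cᶜ
        have := card_insert_le z B0
        omega
      simp only [mem_sdiff, mem_compl, mem_insert, not_or] at hs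
      have q3 : v3 ∉ B0 := fun h => (b2 _ h).2 (by simp)
      refine hB (S.pick D (e := z) hv [s, v2] (insert v3 B0) (insert z (insert s B0))
        (by simp [hm]) ?_ ?_ ?_ ?_ ?_ ?_)
      · simp [ne cv hs.1, ne cv hz, n12, (ne cv2 hs.1).symm, hs.2.1, ne cv2 hz]
      · simp [S.blue v hv s hs.1, (S.blue v2 hv2 s hs.1).symm, S.blue v2 hv2 z hz]
      · rw [card_insert_of_notMem q3]; omega
      · intro u hu
        rcases mem_insert.mp hu with rfl | hu
        · simp [(S.blue u hv3 z hz).symm, n13.symm, n23.symm, ne cv3 hs.1, ne cv3 hz]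
        · have := b2 u hu
          simp only [mem_insert, mem_singleton, not_or] at this
          have us : u ≠ s := fun h => hs.2.2 (h ▸ hu)
          simp [this.1, this.2.1, this.2.2.1, us, this.1.ne.symm]
      · intro u hu h
        simp only [mem_insert, List.cons_append, List.nil_append, List.mem_cons,
          List.not_mem_nil, or_false] at h ⊢
        rcases h with (rfl | h) | rfl | rfl | rfl | rfl
        · exact absurd cv3 hu
        · exact Or.inr (Or.inr h)
        · exact absurd cv hu
        · exact Or.inr (Or.inl rfl)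
        · exact absurd cv2 hu
        · exact Or.inl rfl
      · have := card_insert_le s B0
        have := card_insert_le z (insert s B0)
        omega
    have s1 := sum_le_card_nsmul _ _ _ hD
    have s2 : ∑ c ∈ Cᶜᶜ, (nb B c ∩ Cᶜᶜ).card ≤ Cᶜᶜ.card • (k - 4) :=
      sum_le_card_nsmul _ _ _ (fun c hc => by rw [compl_compl] at hc ⊢; exact S.inC hc)
    rw [dsum B Cᶜ]
    rw [cD, smul_eq_mul] at s1
    have cc : Cᶜᶜ.card = k := by rw [compl_compl, cC]
    rw [cc, smul_eq_mul] at s2
    obtain ⟨i, rfl⟩ : ∃ i, k = i + 5 := ⟨k - 5, by omega⟩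
    have e1 : i + 5 - 2 = i + 3 := by omega
    have e2 : i + 5 - 1 = i + 4 := by omega
    have e3 : i + 5 - 4 = i + 1 := by omega
    have e4 : 2 * (i + 5) - 2 = 2 * (i + 4) := by omega
    rw [e1, e2] at s1
    rw [e3] at s2
    rw [e1, e4]
    nlinarith

end Pool.Agent.Lib.MP_06e9af_co
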