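import Pool.Agent.Lib.MP_06e9af_co.U.Two
import Pool.Agent.Lib.MP_06e9af_co.U.Three
import Pool.Agent.Lib.MP_06e9af_co.U.Dom
import Pool.Agent.Lib.MP_06e9af_co.U.Near
import Pool.Agent.Lib.MP_06e9af_co.Final

/-!
Two non-star trees of the same order.
-/

namespace Pool.Agent.Lib.MP_06e9af_co

open Finset

variable {α V : Type*} [DecidableEq α] [Fintype α] [Fintype V] [DecidableEq V]
  {T1 T2 : SimpleGraph α} {R B : SimpleGraph V}

lemma no_cf (h1 : T1.IsTree) (ns1 : ∀ c, ∃ u, u ≠ c ∧ ¬ T1.Adj c u) (h2 : T2.IsTree)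
    (ns2 : ∀ c, ∃ u, u ≠ c ∧ ¬ T2.Adj c u)
    (NS : ∀ y x, LeafOf T2 y x → ∀ a, a ≠ y → ∃ u, u ≠ y ∧ u ≠ a ∧ ¬ T2.Adj a u)
    {k : ℕ} (hk : 4 ≤ k) (hα : Fintype.card α = k + 1) (hV : Fintype.card V = 2 * k - 2)
    {y1 x1 y2 x2 y' q : α} (hq : x1 ≠ q) (hy' : LeafOf T1 y' q) {f g : α → V} {t : α}
    {C : Finset V} (c : Cf T1 T2 R B y1 x1 y2 x2 f g t C k) : False := by
  classical
  have l := goodLeaf h1 ns1 c.leaf1 hy' hq.symm
  obtain ⟨d1, p1, P1⟩ := exists_PS h1 x1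
  obtain ⟨d2, p2, P2⟩ := exists_PS h2 x2
  obtain ⟨j, rfl⟩ : ∃ j, k = j + 2 := ⟨k - 2, by omega⟩
  have hV' : Fintype.card V = 2 * j + 2 := by omega
  have e : (j + 2 - 2) * (2 * (j + 2) - 2) = j * (2 * j + 2) := by
    rw [show 2 * (j + 2) - 2 = 2 * j + 2 by omega]; rfl
  by_cases hL : ∀ w, Lp B C w → w = f x1 ∨ w = f q
  · have hall : ∀ a b, LeafOf T1 a b → b = x1 ∨ b = q := by
      intro a b hab
      by_cases hb : b = x1
      · exact Or.inl hb
      have l' := goodLeaf h1 ns1 c.leaf1 hab hb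
      rcases hL _ (c.F1 l') with h | h
      · exact Or.inl (c.hf.1 _ _ l'.qy c.xy1 h)
      · exact Or.inr (c.hf.1 _ _ l'.qy l.qy h)
    obtain ⟨A, Bq, mid, D⟩ := exists_DB (V := V) h1 ns1 hq c.leaf1 hy' hall
    have a1 := c.two l D hk hα hL
    have a2 := deg_ge c.col c.leaf2 (P2.rt_leaf c.leaf2) (j := j) hα hV' c.nB
    rw [e] at a1
    omega
  · push Not at hL
    obtain ⟨w, w1, w2, w3⟩ := hL
    have Lq := c.F1 l
    have qv : f x1 ≠ f q := c.fne c.xy1 l.qy hq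
    obtain ⟨q2, A, Bq, mid, D, pa, pb, hm⟩ := dom_DB (V := V) h2 ns2 NS c.leaf2 c.tx c.nadj
      (c.dom c.Lv Lq w1 qv w2.symm w3.symm)
    have S : Lsys B C (C.filter (Lp B C)) (j + 2) := by
      refine ⟨c.cardC, c.cardD, filter_subset _ _, ?_, ?_, ?_, ?_, ?_⟩
      · refine two_lt_card_iff.mpr ⟨f x1, f q, w, ?_, ?_, ?_, qv, w2.symm, w3.symm⟩
        · exact mem_filter.mpr ⟨c.Lv.1, c.Lv⟩
        · exact mem_filter.mpr ⟨Lq.1, Lq⟩
        · exact mem_filter.mpr ⟨w1.1, w1⟩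
      · exact fun a ha => (mem_filter.mp ha).2.2
      · exact fun a ha u hu hb =>
          c.col.not_both (c.Lred (mem_filter.mp ha).2 hu hb.ne.symm) hb
      · exact fun u hu hn => c.Wblue l hu (fun h => hn (mem_filter.mpr ⟨hu, h⟩))
      · obtain ⟨u, hu, hn⟩ := c.exists_notL (bip_of_tree h2 ns2 hk hα)
        exact ⟨u, hu, fun h => hn (mem_filter.mp h).2⟩
    have a1 := S.sum_lt D pa pb hm hα c.nB
    have a2 := deg_ge c.col.symm c.leaf1 (P1.rt_leaf c.leaf1) (j := j) hα hV' c.nR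
    rw [e] at a1
    omega

theorem two_trees (h1 : T1.IsTree) (ns1 : ∀ c, ∃ u, u ≠ c ∧ ¬ T1.Adj c u) (h2 : T2.IsTree)
    (ns2 : ∀ c, ∃ u, u ≠ c ∧ ¬ T2.Adj c u) {k : ℕ} (hk : 4 ≤ k)
    (hα : Fintype.card α = k + 1) (hV : Fintype.card V = 2 * k - 2) (hc : Col R B) :
    Cp T1 R ∨ Cp T2 B := by
  by_cases NS1 : ∀ y x, LeafOf T1 y x → ∀ a, a ≠ y → ∃ u, u ≠ y ∧ u ≠ a ∧ ¬ T1.Adj a u
  swap
  · push Not at NS1
    obtain ⟨y, x, hy, a, hay, ha⟩ := NS1
    exact near2 h1 ns1 h2 ns2 hk hα hV hc hy hay ha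
  by_cases NS2 : ∀ y x, LeafOf T2 y x → ∀ a, a ≠ y → ∃ u, u ≠ y ∧ u ≠ a ∧ ¬ T2.Adj a u
  swap
  · push Not at NS2
    obtain ⟨y, x, hy, a, hay, ha⟩ := NS2
    exact (near2 h2 ns2 h1 ns1 hk hα hV hc.symm hy hay ha).symm
  by_contra hcon
  rw [not_or] at hcon
  obtain ⟨nR, nB⟩ := hcon
  obtain ⟨x1, y1, q1, z1, a1, hy1, hz1⟩ := exists_two_leafparents h1 ns1
  obtain ⟨x2, y2, q2, z2, a2, hy2, hz2⟩ := exists_two_leafparents h2 ns2
  obtain ⟨d1, p1, P1⟩ := exists_PS h1 x1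
  obtain ⟨d2, p2, P2⟩ := exists_PS h2 x2
  have deg : ∀ v, k - 1 ≤ (nb R v).card ∨ k - 1 ≤ (nb B v).card := by
    intro v; have := hc.deg v; omega
  obtain ⟨v0⟩ : Nonempty V := Fintype.card_pos_iff.mp (by omega)
  refine count_step2 (fun u w huw => by have := hc u w huw; tauto) P1.tri P2.tri hy1
    (P1.rt_leaf hy1) hy2 (P2.rt_leaf hy2) (k := k) (by omega) hα hV (NS1 _ _ hy1) (NS2 _ _ hy2)
    nR nB ?_ ?_
  · intro f g hf hg he
    rcases deg (f x1) with h | h
    · obtain ⟨t, C, c⟩ := exists_cf hc hy1 hy2 nR nB (by omega) hα hV hf hg he.symm h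
      exact no_cf h1 ns1 h2 ns2 NS2 hk hα hV a1 hz1 c
    · obtain ⟨t, C, c⟩ := exists_cf hc.symm hy2 hy1 nB nR (by omega) hα hV hg hf he (he ▸ h)
      exact no_cf h2 ns2 h1 ns1 NS1 hk hα hV a2 hz2 c
  · by_contra hch
    rw [not_or] at hch
    rcases deg v0 with h | h
    · have := no_cherry2 (T1 := T1) hc (bip_of_tree h2 ns2 hk hα) hk hα hV hch.1 h; tauto
    · have := no_cherry2 (T1 := T2) hc.symm (bip_of_tree h1 ns1 hk hα) hk hα hV hch.2 h; tauto

theorem two_trees_fin {n : ℕ} (hn : 5 ≤ n) {T1 T2 : SimpleGraph (Fin n)} (h1 : T1.IsTree)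
    (ns1 : ¬ IsStar T1) (h2 : T2.IsTree) (ns2 : ¬ IsStar T2) (G : SimpleGraph (Fin (2 * n - 4))) :
    T1.IsContained G ∨ T2.IsContained Gᶜ := by
  have := two_trees (V := Fin (2 * n - 4)) h1 (not_star_iff.mp ns1) h2 (not_star_iff.mp ns2)
    (k := n - 1) (by omega) (by simp; omega) (by simp; omega) (col_compl G)
  exact this.imp Cp.contained Cp.contained

/-- two red cliques of order `n - 2` avoid every red tree on `n` vertices and the blue star -/
lemma star_pair {n : ℕ} (hn : 2 ≤ n) {T1 T2 : SimpleGraph (Fin n)} (h1 : T1.IsTree)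
    (hs : IsStar T2) : ∃ G : SimpleGraph (Fin (2 * n - 4)),
      ¬ T1.IsContained Gᶜ ∧ ¬ T2.IsContained G := by
  classical
  obtain ⟨c, hc⟩ := hs
  let p : Fin (2 * n - 4) → Prop := fun i => i.val < n - 2
  let G : SimpleGraph (Fin (2 * n - 4)) :=
    { Adj := fun a b => ¬ (p a ↔ p b)
      symm := ⟨fun a b h h' => h h'.symm⟩
      loopless := ⟨fun a h => h Iff.rfl⟩ }
  have s1 : (univ.filter p).card ≤ n - 2 := by
    have : (univ.filter p).card ≤ (range (n - 2)).card :=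
      card_le_card_of_injOn (fun i => i.val) (fun i hi => by simpa [p] using hi)
        (fun a _ b _ h => Fin.ext h)
    simpa using this
  have s2 : (univ.filter (fun i => ¬ p i)).card ≤ n - 2 := by
    have : (univ.filter (fun i => ¬ p i)).card ≤ (Ico (n - 2) (2 * n - 4)).card :=
      card_le_card_of_injOn (fun i => i.val) (fun i hi => by
        have h1 : n - 2 ≤ i.val := by simpa [p] using hi
        simp [h1])
        (fun a _ b _ h => Fin.ext h)
    rw [Nat.card_Ico] at this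
    omega
  have key : ∀ (f : Fin n → Fin (2 * n - 4)) (S : Finset (Fin (2 * n - 4))),
      Function.Injective f → (∀ u, u ≠ c → f u ∈ S) → S.card ≤ n - 2 → False := by
    intro f S hf hS hcard
    have : (univ.erase c).card ≤ S.card :=
      card_le_card_of_injOn f (fun u hu => hS u (by simpa using hu)) (fun a _ b _ h => hf h)
    rw [card_erase_of_mem (mem_univ _), card_univ, Fintype.card_fin] at this
    omega
  refine ⟨G, ?_, ?_⟩
  · rintro ⟨⟨f, hf⟩⟩
    have same : ∀ u w, T1.Reachable u w → (p (f u) ↔ p (f w)) := by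
      rintro u w ⟨W⟩
      induction W with
      | nil => exact Iff.rfl
      | cons h _ ih =>
        have := (f.map_rel h).2
        exact (not_not.mp this).trans ih
    by_cases hp : p (f c)
    · refine key f _ hf (fun u _ => ?_) s1
      have := same c u (h1.connected c u)
      simp only [mem_filter, mem_univ, true_and]; tauto
    · refine key f _ hf (fun u _ => ?_) s2
      have := same c u (h1.connected c u)
      simp only [mem_filter, mem_univ, true_and]; tauto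
  · rintro ⟨⟨f, hf⟩⟩
    by_cases hp : p (f c)
    · refine key f _ hf (fun u hu => ?_) s2
      have : ¬ (p (f c) ↔ p (f u)) := f.map_rel (hc u hu)
      simp only [mem_filter, mem_univ, true_and]; tauto
    · refine key f _ hf (fun u hu => ?_) s1
      have : ¬ (p (f c) ↔ p (f u)) := f.map_rel (hc u hu)
      simp only [mem_filter, mem_univ, true_and]; tauto

end Pool.Agent.Lib.MP_06e9af_co
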