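import Pool.Agent.Lib.MP_06e9af_co.U.Cf

/-!
Two trees: the case of exactly two full vertices.
-/

namespace Pool.Agent.Lib.MP_06e9af_co

open Finset

variable {α V : Type*} [DecidableEq α] [Fintype α] [Fintype V] [DecidableEq V]
  {T1 T2 : SimpleGraph α} {R B : SimpleGraph V}

namespace Cf

variable {y1 x1 y2 x2 : α} {f g : α → V} {t : α} {C : Finset V} {k : ℕ}

lemma two_vertex (c : Cf T1 T2 R B y1 x1 y2 x2 f g t C k) {y' q : α}
    (l : GoodLeaf T1 y1 x1 y' q) {A Bq : Finset α} {mid : List α} (D : DB T1 V x1 q A Bq mid)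
    (hα : Fintype.card α = k + 1) {w : V} (hw : w ∈ C) (hn : ¬ Lp B C w) :
    5 ≤ k ∧ (nb R w ∩ C).card + 2 * (nb R w ∩ Cᶜ).card ≤ k - 2 := by
  obtain ⟨z, z1, z2⟩ := c.red_of_not hw hn
  have hcard := D.card
  rw [hα] at hcard
  have yA : y1 ∈ A := (D.hA y1).mpr c.leaf1
  have Lv := c.Lv
  have Lq := c.F1 l
  have wv : w ≠ f x1 := fun h => hn (h ▸ Lv)
  have wq : w ≠ f q := fun h => hn (h ▸ Lq)
  have qv : f q ≠ f x1 := c.fne l.qy c.xy1 l.qx
  have ex : ∃ m : List V, m.length = mid.length ∧ (m ++ [w]).Nodup ∧ (m ++ [w]).IsChain R.Adj ∧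
      ∀ u ∈ m, u ∈ C ∧ u ≠ f x1 := by
    by_cases hm : mid = []
    · exact ⟨[], by simp [hm], by simp, by simp, by simp⟩
    have n0 := D.nodup
    have c0 := D.chain
    have y0 : y1 ∉ x1 :: (mid ++ [q]) := fun h => D.notA y1 h yA
    have n1 : mid.Nodup := (List.nodup_append.mp (List.nodup_cons.mp n0).2).1
    have c1 : mid.IsChain T1.Adj := c0.tail.left_of_append
    have y3 : y1 ∉ mid := fun h => y0 (by simp [h])
    have x3 : x1 ∉ mid := fun h => (List.nodup_cons.mp n0).1 (by simp [h])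
    have q3 : q ∉ mid := fun h =>
      (List.nodup_append.mp (List.nodup_cons.mp n0).2).2.2 q h q (by simp) rfl
    obtain ⟨n2, c2⟩ := c.hf.map_list y3 n1 c1
    obtain ⟨m, m1, m2, m3, -, m5⟩ := red_rot R (f q) ((C.erase (f x1)).erase (f q)) (mid.map f)
      n2 c2 (by
        intro u hu
        obtain ⟨a, ha, rfl⟩ := List.mem_map.mp hu
        have ay : a ≠ y1 := fun h => y3 (h ▸ ha)
        exact mem_erase.mpr ⟨c.fne ay l.qy (fun h => q3 (h ▸ ha)),
          mem_erase.mpr ⟨c.fne ay c.xy1 (fun h => x3 (h ▸ ha)), c.fmem ay⟩⟩)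
      (notMem_erase _ _)
      (fun u hu => c.Lred Lq (mem_of_mem_erase (mem_of_mem_erase hu)) (ne_of_mem_erase hu))
      (by simpa using hm) (mem_erase.mpr ⟨wq, mem_erase.mpr ⟨wv, hw⟩⟩)
    refine ⟨m, by simpa using m1, m2, m3, fun u hu => ?_⟩
    rcases m5 u hu with h | h
    · rw [h]; exact ⟨Lq.1, qv⟩
    · exact ⟨mem_of_mem_erase (mem_of_mem_erase h), ne_of_mem_erase (mem_of_mem_erase h)⟩
  obtain ⟨m, m1, m2, m3, m4⟩ := ex
  have m5 : ∀ u ∈ m ++ [w], u ∈ C ∧ u ≠ f x1 := by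
    intro u hu
    rcases List.mem_append.mp hu with h | h
    · exact m4 u h
    · rw [List.mem_singleton.mp h]; exact ⟨hw, wv⟩
  have pn : (f x1 :: (m ++ [w])).Nodup := List.nodup_cons.mpr ⟨fun h => (m5 _ h).2 rfl, m2⟩
  have pc : (f x1 :: (m ++ [w])).IsChain R.Adj :=
    chain_cons' m3 (fun a ha => c.red a (m5 a ha).1 (m5 a ha).2)
  set P : Finset V := (f x1 :: (m ++ [w])).toFinset with hP
  have mP : ∀ u, u ∈ P ↔ u ∈ f x1 :: (m ++ [w]) := fun u => List.mem_toFinset
  have cP : P.card = mid.length + 2 := by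
    rw [hP, List.toFinset_card_of_nodup pn]; simp [m1]
  have PC' : P ⊆ C := by
    intro u hu
    rcases List.mem_cons.mp ((mP u).mp hu) with h | h
    · rw [h]; exact Lv.1
    · exact (m5 u h).1
  have wP : w ∈ P := (mP w).mpr (by simp)
  have cW : (C \ P).card + (mid.length + 2) = k := by
    rw [← cP, card_sdiff_add_card_eq_card PC', c.cardC]
  have zN : z ∈ nb R w \ P := mem_sdiff.mpr ⟨mem_nb.mpr z2, fun h => z1 (PC' h)⟩
  have small : (nb R w \ P).card + 1 ≤ min A.card Bq.card := by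
    by_contra hcon
    obtain ⟨B0, b1, b2⟩ := exists_subset_card_eq
      (show min A.card Bq.card - 1 ≤ ((nb R w \ P).erase z).card by
        rw [card_erase_of_mem zN]; omega)
    have zB : z ∉ B0 := fun h => (ne_of_mem_erase (b1 h)) rfl
    have pa : 0 < A.card := card_pos.mpr ⟨y1, yA⟩
    have pb : 0 < Bq.card := card_pos.mpr ⟨y', (D.hB y').mpr l.leaf⟩
    refine c.nR (D.emb2 R (f x1) w m ((C \ P) \ B0) (insert z B0) m1 pn pc ?_ ?_ ?_ ?_ ?_)
    · have := le_card_sdiff B0 (C \ P)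
      omega
    · rw [card_insert_of_notMem zB]; omega
    · rw [disjoint_insert_right]
      exact ⟨fun h => z1 (mem_sdiff.mp (mem_sdiff.mp h).1).1, sdiff_disjoint⟩
    · intro u hu
      have h := mem_sdiff.mp (mem_sdiff.mp hu).1
      exact ⟨c.red u h.1 (fun e => h.2 ((mP u).mpr (by simp [e]))), fun e => h.2 ((mP u).mpr e)⟩
    · intro u hu
      have h : u ∈ nb R w \ P := by
        rcases mem_insert.mp hu with rfl | hu
        · exact zN
        · exact mem_of_mem_erase (b1 hu)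
      rw [mem_sdiff, mem_nb] at h
      exact ⟨h.1, fun e => h.2 ((mP u).mpr e)⟩
  have p1 : 0 < (nb R w \ P).card := card_pos.mpr ⟨z, zN⟩
  have a1 : (nb R w ∩ Cᶜ).card ≤ (nb R w \ P).card := by
    refine card_le_card (fun u hu => ?_)
    rw [mem_inter, mem_compl] at hu
    exact mem_sdiff.mpr ⟨hu.1, fun h => hu.2 (PC' h)⟩
  have a2 : (nb R w).card ≤ (nb R w \ P).card + (P.erase w).card := by
    refine (card_le_card (fun u hu => ?_)).trans (card_union_le _ _)
    by_cases h : u ∈ P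
    · exact mem_union_right _ (mem_erase.mpr ⟨(mem_nb.mp hu).ne.symm, h⟩)
    · exact mem_union_left _ (mem_sdiff.mpr ⟨hu, h⟩)
  rw [card_erase_of_mem wP, cP, nb_split R C w] at a2
  omega

lemma two (c : Cf T1 T2 R B y1 x1 y2 x2 f g t C k) {y' q : α}
    (l : GoodLeaf T1 y1 x1 y' q) {A Bq : Finset α} {mid : List α} (D : DB T1 V x1 q A Bq mid)
    (hk : 4 ≤ k) (hα : Fintype.card α = k + 1)
    (hL : ∀ w, Lp B C w → w = f x1 ∨ w = f q) :
    ∑ v, (nb R v).card < (k - 2) * (2 * k - 2) := by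
  have h5 : 5 ≤ k := by
    obtain ⟨w, hw⟩ : ((C.erase (f x1)).erase (f q)).Nonempty := by
      rw [← card_pos]
      have a1 := pred_card_le_card_erase (s := C) (a := f x1)
      have a2 := pred_card_le_card_erase (s := C.erase (f x1)) (a := f q)
      have := c.cardC
      omega
    simp only [mem_erase] at hw
    refine (c.two_vertex l D hα hw.2.2 (fun h => ?_)).1
    rcases hL w h with h | h
    · exact hw.2.1 h
    · exact hw.1 h
  have s1 : ∑ w ∈ C, ((nb R w ∩ C).card + 2 * (nb R w ∩ Cᶜ).card) ≤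
      ∑ w ∈ C, ((k - 2) + if w ∈ ({f x1, f q} : Finset V) then 1 else 0) := by
    refine sum_le_sum (fun w hw => ?_)
    by_cases h : Lp B C w
    · have e : nb R w ∩ Cᶜ = ∅ := by
        rw [eq_empty_iff_forall_notMem]
        intro u hu
        rw [mem_inter, mem_compl, mem_nb] at hu
        exact c.col.not_both hu.1 (h.2 u hu.2)
      have a : (nb R w ∩ C).card ≤ (C.erase w).card := by
        refine card_le_card (fun u hu => ?_)
        rw [mem_inter, mem_nb] at hu
        exact mem_erase.mpr ⟨hu.1.ne.symm, hu.2⟩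
      rw [card_erase_of_mem hw, c.cardC] at a
      rw [e, card_empty, if_pos (by simpa using hL w h)]
      omega
    · have := (c.two_vertex l D hα hw h).2
      omega
  have s2 : ∑ z ∈ Cᶜ, (nb R z ∩ Cᶜ).card ≤ ∑ _z ∈ Cᶜ, (k - 3) := by
    refine sum_le_sum (fun z hz => ?_)
    have a : (nb R z ∩ Cᶜ).card ≤ (Cᶜ.erase z).card := by
      refine card_le_card (fun u hu => ?_)
      rw [mem_inter, mem_nb] at hu
      exact mem_erase.mpr ⟨hu.1.ne.symm, hu.2⟩
    rw [card_erase_of_mem hz, c.cardD] at a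
    omega
  have s3 : ∑ w ∈ C, (if w ∈ ({f x1, f q} : Finset V) then 1 else 0) ≤ 2 := by
    rw [← card_filter]
    exact (card_le_card (fun u hu => (mem_filter.mp hu).2)).trans card_le_two
  rw [sum_add_distrib (f := fun _ => k - 2), sum_const, c.cardC, smul_eq_mul] at s1
  rw [sum_const, c.cardD, smul_eq_mul] at s2
  rw [dsum R C]
  obtain ⟨j, rfl⟩ : ∃ j, k = j + 5 := ⟨k - 5, by omega⟩
  have e1 : j + 5 - 2 = j + 3 := rfl
  have e2 : j + 5 - 3 = j + 2 := rfl
  have e3 : 2 * (j + 5) - 2 = 2 * j + 8 := by omega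
  rw [e1] at s1
  rw [e1, e2] at s2
  rw [e1, e3]
  nlinarith

end Cf

end Pool.Agent.Lib.MP_06e9af_co
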